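import Mathlib
set_option autoImplicit false
open Relation
namespace Pool.Agent.Results.MP_af84f5_co.Conv

variable {V : Type} (D : V → V → Prop)

def rev (S : Set (V × V)) (u v : V) : Prop := (D u v ∧ (u, v) ∉ S) ∨ (D v u ∧ (v, u) ∈ S)

def AR : Type := {S : Set (V × V) // (∀ e ∈ S, D e.1 e.2) ∧ ∀ v, ¬TransGen (rev D S) v v}

def SS (L : Type) [Lattice L] : Prop :=
  ∃ M : Set L, IsMaxChain (· ≤ ·) M ∧ ∀ K : Set L, IsChain (· ≤ ·) K →
    ∀ a ∈ latticeClosure (M ∪ K), ∀ b ∈ latticeClosure (M ∪ K), ∀ c ∈ latticeClosure (M ∪ K),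
      a ⊓ (b ⊔ c) = a ⊓ b ⊔ a ⊓ c

inductive Peo : Set V → Prop
  | small (R : Set V) : R.Subsingleton → Peo R
  | step (R : Set V) (v : V) : v ∈ R → ((∀ u ∈ R, ¬D u v) ∨ ∀ u ∈ R, ¬D v u) →
      (∀ u ∈ R, ∀ w ∈ R, u ≠ w → (D u v ∨ D v u) → (D w v ∨ D v w) → D u w ∨ D w u) →
      Peo (R \ {v}) → Peo R

variable {D}

lemma ins {r s : V → V → Prop} {a b x y : V} (h : ∀ u v, s u v → r u v ∨ u = b ∧ v = a)
    (p : TransGen s x y) : TransGen r x y ∨ ReflTransGen r x b ∧ ReflTransGen r a y := by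
  induction p with
  | single q => exact (h _ _ q).imp .single fun ⟨e, f⟩ => ⟨e ▸ .refl, f ▸ .refl⟩
  | tail _ q ih =>
    rcases h _ _ q with q | ⟨rfl, rfl⟩
    · exact ih.imp (·.tail q) fun ⟨e, f⟩ => ⟨e, f.tail q⟩
    · exact Or.inr ⟨ih.elim (·.to_reflTransGen) (·.1), .refl⟩

lemma flip [Finite V] (hD : ∀ v, ¬TransGen D v v) {S T : AR D} (h : S.1 ⊂ T.1) :
    ∃ e ∈ T.1 \ S.1, ∃ U : AR D, U.1 = insert e S.1 := by
  let I (e : V × V) := {w | ReflTransGen (rev D S.1) e.1 w ∧ ReflTransGen (rev D S.1) w e.2}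
  obtain ⟨⟨a, b⟩, he, mn⟩ := Set.exists_min_image (T.1 \ S.1) (fun e => (I e).ncard) (Set.toFinite _)
    (Set.nonempty_of_ssubset h)
  refine ⟨_, he, ⟨_, fun e q => q.elim (· ▸ T.2.1 _ he.1) (S.2.1 e), fun v q => ?_⟩, rfl⟩
  let r u v := rev D S.1 u v ∧ (u, v) ≠ (a, b)
  have m {u v} (q : ReflTransGen r u v) : ReflTransGen (rev D S.1) u v := ReflTransGen.mono (fun _ _ h => h.1) _ _ q
  rcases ins (r := r) (a := a) (b := b) (fun u v q => by
    rcases q with ⟨q1, q2⟩ | ⟨q1, q2 | q2⟩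
    · exact Or.inl ⟨Or.inl ⟨q1, fun z => q2 (Or.inr z)⟩, fun z => q2 (Or.inl z)⟩
    · cases q2; exact Or.inr ⟨rfl, rfl⟩
    · refine Or.inl ⟨Or.inr ⟨q1, q2⟩, fun z => ?_⟩
      cases z
      exact hD _ (.tail (.single q1) (T.2.1 _ he.1))) q with
    q | ⟨q1, q2⟩
  · exact S.2.2 v (TransGen.mono (fun _ _ h => h.1) _ _ q)
  have k (d) (p : ReflTransGen r a d) (z : ReflTransGen (rev D S.1) d b) :
      ReflTransGen (rev D T.1) a d := by
    induction p with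
    | refl => exact .refl
    | @tail c d p q ih =>
      refine (ih (z.head q.1)).tail ?_
      rcases q.1 with ⟨q1, q2⟩ | ⟨q1, q2⟩
      swap
      · exact Or.inr ⟨q1, h.1 q2⟩
      refine Or.inl ⟨q1, fun t => (mn (c, d) ⟨t, q2⟩).not_gt (Set.ncard_lt_ncard ⟨fun w hw =>
        ⟨(m p).trans hw.1, hw.2.trans z⟩, fun s => q.2 ?_⟩)⟩
      have as {x y} (p : ReflTransGen (rev D S.1) x y) (q : ReflTransGen (rev D S.1) y x) : x = y :=
        (reflTransGen_iff_eq_or_transGen.1 p).elim Eq.symm fun p => absurd (p.trans_left q) (S.2.2 _)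
      have ab : ReflTransGen (rev D S.1) a b := (m p).trans (z.head q.1)
      exact Prod.ext (as (@s a ⟨.refl, ab⟩).1 (m p)) (as z (@s b ⟨ab, .refl⟩).2)
  exact T.2.2 a ((TransGen.tail' (k b (q2.trans q1) .refl)) (Or.inr ⟨T.2.1 _ he.1, he.1⟩))

lemma idx [DecidableEq V] {G : SimpleGraph V} {a b : V} (p : G.Walk a b) (h : p.IsPath) :
    ∀ d ∈ p.darts, p.support.idxOf d.fst < p.support.idxOf d.snd := by
  induction p with
  | nil => simp
  | cons q p ih =>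
    rw [SimpleGraph.Walk.cons_isPath_iff] at h
    intro d hd
    rw [SimpleGraph.Walk.support_cons]
    rcases List.mem_cons.1 hd with rfl | hd
    · simp [q.ne]
    · rw [List.idxOf_cons_ne _ fun e => h.2 (by rw [e]; exact p.dart_fst_mem_support_of_mem_darts hd),
        List.idxOf_cons_ne _ fun e => h.2 (by rw [e]; exact p.dart_snd_mem_support_of_mem_darts hd)]
      exact Nat.succ_lt_succ (ih h.1 d hd)

lemma walk {G : SimpleGraph V} {r : V → V → Prop} {a b : V} (p : G.Walk a b)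
    (h : ∀ d ∈ p.darts, r d.fst d.snd) : ReflTransGen r a b := by
  induction p with
  | nil => exact .refl
  | cons q p ih => exact (ih fun d hd => h d (List.mem_cons_of_mem _ hd)).head (h ⟨(_, _), q⟩ (by simp))

lemma forest [Finite V] (hD : ∀ v, ¬TransGen D v v) [Lattice (AR D)]
    (hle : ∀ S T : AR D, S ≤ T ↔ S.1 ⊆ T.1) (h : SS (AR D)) : (SimpleGraph.fromRel D).IsAcyclic := by
  classical
  obtain ⟨M, hM, hd⟩ := h
  have : Finite (AR D) := Subtype.finite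
  have mem (S : AR D) (q : ∀ T ∈ M, S ≤ T ∨ T ≤ S) : S ∈ M :=
    (hM.2 (hM.1.insert fun T t _ => q T t) (Set.subset_insert _ _)) ▸ Set.mem_insert _ _
  let B : AR D := ⟨∅, by simp, fun v q => hD v (TransGen.mono (fun _ _ h => h.elim (·.1) (·.2.elim)) _ _ q)⟩
  let T : AR D := ⟨{e | D e.1 e.2}, fun _ h => h, fun v q => hD v (transGen_swap.1
    (TransGen.mono (fun _ _ h => h.elim (fun h => (h.2 h.1).elim) (·.1)) _ _ q))⟩
  have cut (P : V × V → Prop) (q : ∃ e, D e.1 e.2 ∧ P e) : ∃ x ∈ M, ∃ z ∈ M, ∃ e, P e ∧ D e.1 e.2 ∧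
      z.1 = insert e x.1 ∧ (∀ e ∈ x.1, ¬P e) ∧ ∀ w ∈ M, (∀ e ∈ w.1, ¬P e) → w ≤ x := by
    obtain ⟨x, x1, x2⟩ := (Set.toFinite {w ∈ M | ∀ e ∈ w.1, ¬P e}).exists_maximal
      ⟨B, mem B fun _ _ => Or.inl ((hle _ _).2 (Set.empty_subset _)), fun _ h => h.elim⟩
    obtain ⟨z, z1, z2⟩ := (Set.toFinite {w ∈ M | ¬∀ e ∈ w.1, ¬P e}).exists_minimal
      ⟨T, mem T fun w _ => Or.inr ((hle _ _).2 w.2.1), fun h => q.elim fun e he => h e he.1 he.2⟩
    have lx (w) (hw : w ∈ M) (q : ∀ e ∈ w.1, ¬P e) : w ≤ x :=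
      (hM.1.total hw x1.1).elim id (x2 ⟨hw, q⟩)
    have lz (w) (hw : w ∈ M) (q : ¬∀ e ∈ w.1, ¬P e) : z ≤ w :=
      (hM.1.total z1.1 hw).elim id (z2 ⟨hw, q⟩)
    have nz : ¬z.1 ⊆ x.1 := fun s => z1.2 fun e he => x1.2 e (s he)
    have xz : x.1 ⊆ z.1 := (hle _ _).1 ((hM.1.total x1.1 z1.1).resolve_right (mt (hle _ _).1 nz))
    obtain ⟨e, e1, U, hU⟩ := flip hD ⟨xz, nz⟩
    have xU : x ≤ U := (hle _ _).2 (hU ▸ Set.subset_insert _ _)
    have Uz : U ≤ z := (hle _ _).2 (hU ▸ Set.insert_subset e1.1 xz)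
    have UM : U ∈ M := mem U fun w hw => (em _).elim (fun q => Or.inr ((lx w hw q).trans xU))
      fun q => Or.inl (Uz.trans (lz w hw q))
    have nU : ¬∀ e ∈ U.1, ¬P e := fun q =>
      e1.2 ((hle _ _).1 (lx U UM q) (hU ▸ Set.mem_insert _ _))
    refine ⟨x, x1.1, U, UM, e, ?_, z.2.1 e e1.1, hU, x1.2, lx⟩
    by_contra n
    exact nU fun f hf => (hU ▸ hf : f ∈ insert e x.1).elim (· ▸ n) (x1.2 f)
  have un (x) (hx : x ∈ M) (y : AR D) : (x ⊔ y).1 = x.1 ∪ y.1 := by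
    refine Set.Subset.antisymm (fun g hg => ?_)
      (Set.union_subset ((hle _ _).1 le_sup_left) ((hle _ _).1 le_sup_right))
    by_contra! n
    rw [Set.mem_union, not_or] at n
    obtain ⟨u, hu, z, hz, e, rfl, -, e2, e3, e4⟩ := cut (· = g) ⟨g, (x ⊔ y).2.1 g hg, rfl⟩
    have a1 := hd {y} Set.subsingleton_singleton.isChain z (subset_latticeClosure (Or.inl hz))
      u (subset_latticeClosure (Or.inl hu)) y (subset_latticeClosure (Or.inr rfl))
    have a2 : z ≤ u ⊔ y := (hle _ _).2 (e2 ▸ Set.insert_subset ((hle _ _).1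
      (sup_le_sup_right (e4 x hx fun f hf q => n.1 (q ▸ hf)) y) hg) ((hle _ _).1 le_sup_left))
    have a3 : z ⊓ y ≤ u := (hle _ _).2 fun f hf =>
      (e2 ▸ (hle _ _).1 inf_le_left hf : f ∈ insert e u.1).resolve_left fun q =>
        n.2 (q ▸ (hle _ _).1 inf_le_right hf)
    rw [inf_of_le_left a2] at a1
    exact e3 e ((hle _ _).1 (a1.trans_le (sup_le inf_le_right a3)) (e2 ▸ Set.mem_insert _ _)) rfl
  intro v c hc
  obtain ⟨x, -, z, hz, ⟨a, b⟩, e0, e1, e2, e3, -⟩ := cut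
    (fun e => ∃ u, ∃ p : (SimpleGraph.fromRel D).Walk u u, p.IsCycle ∧ s(e.1, e.2) ∈ p.edges) (by
      cases c with
      | nil => exact (hc.ne_nil rfl).elim
      | cons q p =>
        rcases q.2 with h | h
        · exact ⟨(_, _), h, _, _, hc, by simp⟩
        · exact ⟨(_, _), h, _, _, hc, by simp [Sym2.eq_swap]⟩)
  obtain ⟨ab, ⟨p⟩⟩ := SimpleGraph.adj_and_reachable_delete_edges_iff_exists_cycle.2 e0
  have hp (e) (he : e ∈ p.toPath.1.edges) := SimpleGraph.Walk.edges_subset_edgeSet _ he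
  simp only [SimpleGraph.edgeSet_deleteEdges, Set.mem_sdiff, Set.mem_singleton_iff] at hp
  obtain ⟨q, q1, q2⟩ : ∃ q : (SimpleGraph.fromRel D).Walk a b, q.IsPath ∧ s(a, b) ∉ q.edges :=
    ⟨p.toPath.1.transfer _ fun e he => (hp e he).1, p.toPath.2.transfer _, by
      rw [SimpleGraph.Walk.edges_transfer]; exact fun he => (hp _ he).2 rfl⟩
  have cy : (q.cons ab.symm).IsCycle := (SimpleGraph.Walk.cons_isCycle_iff _ _).2
    ⟨q1, by rwa [Sym2.eq_swap]⟩
  obtain ⟨n, ⟨ι⟩⟩ := Finite.exists_equiv_fin V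
  let k (w : V) : ℕ ×ₗ Fin n := toLex (q.support.idxOf w, ι w)
  have ki {u w} (h : k u = k w) : u = w := ι.injective (congrArg (fun x => (ofLex x).2) h)
  let y : AR D := ⟨{e | D e.1 e.2 ∧ k e.2 < k e.1}, fun _ h => h.1, fun v q => lt_irrefl (k v) (by
    have : ∀ {u w}, TransGen (rev D {e | D e.1 e.2 ∧ k e.2 < k e.1}) u w → k u < k w := by
      have s {u w} (h : rev D {e | D e.1 e.2 ∧ k e.2 < k e.1} u w) : k u < k w :=
        h.elim (fun h => lt_of_le_of_ne (not_lt.1 fun l => h.2 ⟨h.1, l⟩) fun e =>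
          hD u (.single (ki e ▸ h.1))) (·.2.2)
      intro u w p
      induction p with
      | single h => exact s h
      | tail _ h ih => exact ih.trans (s h)
    exact this q)⟩
  refine (z ⊔ y).2.2 a (TransGen.tail' (walk q fun d hd => ?_) (Or.inr ⟨e1, ?_⟩))
  · have l : k d.fst < k d.snd := Prod.Lex.toLex_lt_toLex.2 (Or.inl (idx q q1 d hd))
    have m : d.edge ∈ q.edges := List.mem_map_of_mem hd
    rw [un z hz, e2]
    refine d.adj.2.imp (fun h => ⟨h, ?_⟩) fun h => ⟨h, Or.inr ⟨h, l⟩⟩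
    rintro ((e | e) | e)
    · exact q2 ((congrArg (fun t : V × V => s(t.1, t.2)) e : d.edge = s(a, b)) ▸ m)
    · exact e3 _ e ⟨_, _, cy, List.mem_cons_of_mem _ m⟩
    · exact l.not_gt e.2
  · rw [un z hz, e2]
    exact Or.inl (Or.inl rfl)

theorem result (V : Type) [Finite V] (D : V → V → Prop) (hD : ∀ v, ¬TransGen D v v)
    [Lattice (AR D)] (hle : ∀ S T : AR D, S ≤ T ↔ S.1 ⊆ T.1) (h : SS (AR D)) :
    Peo D Set.univ := by
  have F := forest hD hle h
  have ne {u v} (q : D u v ∨ D v u) : (SimpleGraph.fromRel D).Adj u v :=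
    ⟨by rintro rfl; exact hD u (.single (q.elim id id)), q⟩
  generalize Set.univ = R
  induction hn : R.ncard using Nat.strong_induction_on generalizing R with
  | _ n ih =>
  rcases R.eq_empty_or_nonempty with rfl | hR
  · exact .small _ Set.subsingleton_empty
  have := hR.to_subtype
  obtain ⟨v, t, p, p1, p2⟩ := 
    SimpleGraph.Walk.exists_isPath_forall_isPath_length_le_length ((SimpleGraph.fromRel D).induce R)
  have k (u) (hu : u ∈ R) (q : D u v ∨ D v u) : u = p.snd := by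
    have a : ((SimpleGraph.fromRel D).induce R).Adj v ⟨u, hu⟩ := (ne q).symm
    refine congrArg Subtype.val ((F.induce R).eq_snd_of_adj_start p1 a ?_)
    by_contra m
    simpa using p2 _ _ (p.cons a.symm) (p1.cons m)
  refine .step R v v.2 ?_ (fun u hu w hw e a b => absurd ((k u hu a).trans (k w hw b).symm) e)
    (ih _ (hn ▸ Set.ncard_sdiff_singleton_lt_of_mem v.2) _ rfl)
  by_contra! q
  obtain ⟨⟨u, hu, a⟩, w, hw, b⟩ := q
  obtain rfl := (k u hu (Or.inl a)).trans (k w hw (Or.inr b)).symm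
  exact hD u (.tail (.single a) b)

end Pool.Agent.Results.MP_af84f5_co.Conv
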